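import Pool.Agent.J4H12.MX.Main

set_option autoImplicit false

universe u

namespace Pool.Agent.J4H12.MX

variable {G : Type u} [Group G] [TopologicalSpace G] [IsTopologicalGroup G] [CompactSpace G]
  [TotallyDisconnectedSpace G]

/-- (2) implies (3). -/
theorem decomp (hSYL : S_SYL.{u}) (hPTA : S_PTA.{u}) (hPHI : S_PHI.{u}) (hNSY : S_NSY.{u})
    (hDIR : S_DIR.{u}) (hfin : {p : ℕ | p.Prime ∧ Dv p (⊤ : Subgroup G)}.Finite)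
    (hmax : ∀ (p : ℕ) (P : Subgroup G), p.Prime → Syl p ⊤ P → MaxC P) :
    ∃ (s : Finset ℕ) (M : Subgroup G) (R : ℕ → Subgroup G), (∀ p ∈ s, p.Prime) ∧ ON M ∧
      (∀ p ∈ s, IsClosed (R p : Set G) ∧ (R p).Normal ∧ ProP p (R p) ∧ MaxC (R p)) ∧
      (∀ p ∈ s, ∀ q ∈ s, p ≠ q → ∀ x ∈ R p, ∀ y ∈ R q, x * y = y * x) ∧
      (∀ p ∈ s, R p ⊓ ⨆ q ∈ s.erase p, R q = ⊥) ∧ M = ⨆ p ∈ s, R p := by
  classical
  set s : Finset ℕ := hfin.toFinset with hs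
  have hmem : ∀ p, p ∈ s ↔ p.Prime ∧ Dv p (⊤ : Subgroup G) := by
    intro p; rw [hs, Set.Finite.mem_toFinset]; rfl
  have key : ∀ p : ℕ, p.Prime → ∃ (N K : Subgroup G), ON N ∧ IsClosed (K : Set G) ∧ K.Normal ∧
      K ≤ N ∧ ¬ Dv p K ∧ ∀ x ∈ N, ∀ U : Subgroup G, ON U → ∃ k : ℕ, x ^ p ^ k ∈ K ⊔ U := by
    intro p hp
    obtain ⟨P, hP⟩ := hSYL G p ⊤ hp isClosed_univ
    obtain ⟨N, hN, hN2⟩ := hPHI G p P hp hP.closed hP.prop (hmax p P hp hP)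
    obtain ⟨K, hK⟩ := hPTA G p P N hp hP hN hN2
    exact ⟨N, K, hN, hK⟩
  choose! N K hNK using key
  obtain ⟨M, R, hM, hR, hMR⟩ := hDIR G s N K (fun p hp => ((hmem p).1 hp).1)
    (fun p hp hD => (hmem p).2 ⟨hp, hD⟩) (fun p hp => hNK p ((hmem p).1 hp).1)
  have hpr : ∀ p ∈ s, p.Prime := fun p hp => ((hmem p).1 hp).1
  refine ⟨s, M, R, hpr, hM, ?_, ?_, ?_, hMR⟩
  · intro p hp
    obtain ⟨h1, h2, h3⟩ := hR p hp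
    refine ⟨h1, h2, h3, ?_⟩
    obtain ⟨P, hP⟩ := hSYL G p ⊤ (hpr p hp) isClosed_univ
    exact (hmax p P (hpr p hp) hP).mono (hNSY G p (R p) P (hpr p hp) h1 h2 h3 hP)
  · intro p hp q hq hpq
    exact commute_of (hpr p hp) (hpr q hq) hpq (hR p hp).2.1 (hR q hq).2.1 (hR p hp).2.2
      (hR q hq).2.2
  · intro p hp
    exact indep_of hpr (fun q hq => (hR q hq).2) p hp

/-- The theorem, from the fifteen statements. -/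
theorem main (hSYL : S_SYL.{u}) (hPTA : S_PTA.{u}) (hPHI : S_PHI.{u})
    (hBQ : S_BQ.{u}) (hSLE : S_SLE.{u}) (hNSY : S_NSY.{u}) (hTOWF : S_TOWF.{u})
    (hTOWI : S_TOWI.{u}) (hCHN : S_CHN.{u}) (hDIR : S_DIR.{u}) (hCNV : S_CNV.{u}) :
    (MaxC (⊤ : Subgroup G) ↔ {p : ℕ | p.Prime ∧ Dv p (⊤ : Subgroup G)}.Finite ∧
      ∀ (p : ℕ) (P : Subgroup G), p.Prime → Syl p ⊤ P → MaxC P) ∧
    (MaxC (⊤ : Subgroup G) ↔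
      ∃ (s : Finset ℕ) (M : Subgroup G) (R : ℕ → Subgroup G), (∀ p ∈ s, p.Prime) ∧ ON M ∧
      (∀ p ∈ s, IsClosed (R p : Set G) ∧ (R p).Normal ∧ ProP p (R p) ∧ MaxC (R p)) ∧
      (∀ p ∈ s, ∀ q ∈ s, p ≠ q → ∀ x ∈ R p, ∀ y ∈ R q, x * y = y * x) ∧
      (∀ p ∈ s, R p ⊓ ⨆ q ∈ s.erase p, R q = ⊥) ∧ M = ⨆ p ∈ s, R p) := by
  have h12 : MaxC (⊤ : Subgroup G) → {p : ℕ | p.Prime ∧ Dv p (⊤ : Subgroup G)}.Finite ∧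
      ∀ (p : ℕ) (P : Subgroup G), p.Prime → Syl p ⊤ P → MaxC P := fun h =>
    ⟨finite_of_max hSYL hPTA hPHI hBQ hSLE hTOWF hTOWI hCHN h,
      fun p P hp hP => h.mono le_top⟩
  have h23 := fun h : ({p : ℕ | p.Prime ∧ Dv p (⊤ : Subgroup G)}.Finite ∧
      ∀ (p : ℕ) (P : Subgroup G), p.Prime → Syl p ⊤ P → MaxC P) =>
    decomp hSYL hPTA hPHI hNSY hDIR h.1 h.2
  have h31 : (∃ (s : Finset ℕ) (M : Subgroup G) (R : ℕ → Subgroup G), (∀ p ∈ s, p.Prime) ∧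
      ON M ∧
      (∀ p ∈ s, IsClosed (R p : Set G) ∧ (R p).Normal ∧ ProP p (R p) ∧ MaxC (R p)) ∧
      (∀ p ∈ s, ∀ q ∈ s, p ≠ q → ∀ x ∈ R p, ∀ y ∈ R q, x * y = y * x) ∧
      (∀ p ∈ s, R p ⊓ ⨆ q ∈ s.erase p, R q = ⊥) ∧ M = ⨆ p ∈ s, R p) →
      MaxC (⊤ : Subgroup G) := by
    rintro ⟨s, M, R, hs, hM, hR, -, -, hMR⟩
    exact hCNV G s M R hM (fun p hp => ⟨(hR p hp).1, (hR p hp).2.1, (hR p hp).2.2.2⟩) hMR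
  exact ⟨⟨h12, fun h => h31 (h23 h)⟩, ⟨fun h => h23 (h12 h), h31⟩⟩

end Pool.Agent.J4H12.MX
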