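import Pool.Agent.J4H12.MX.Stm

/-!
# MP_c2f9c6_al: three more statements (finite generation)
-/

set_option autoImplicit false

universe u

namespace Pool.Agent.J4H12.MX

/-- The closed subgroup `H` is topologically finitely generated. -/
def TFG {G : Type u} [Group G] [TopologicalSpace G] (H : Subgroup G) : Prop :=
  ∃ S : Finset G, (H : Set G) = closure (Subgroup.closure (S : Set G) : Set G)

/-- (PHF) The Frattini subgroup of a finitely generated pro-`p` group is open. -/
def S_PHF : Prop :=
  ∀ (G : Type u) [Group G] [TopologicalSpace G] [IsTopologicalGroup G] [CompactSpace G]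
    [TotallyDisconnectedSpace G] (p : ℕ) (P : Subgroup G), p.Prime → IsClosed (P : Set G) →
    ProP p P → TFG P →
    ∃ N : Subgroup G, ON N ∧
      ∀ M : Subgroup G, IsClosed (M : Set G) → M ≤ P → M.relIndex P = p → Nz P M → N ⊓ P ≤ M

/-- (FGM) A pro-`p` group all of whose closed subgroups are finitely generated has max. -/
def S_FGM : Prop :=
  ∀ (G : Type u) [Group G] [TopologicalSpace G] [IsTopologicalGroup G] [CompactSpace G]
    [TotallyDisconnectedSpace G] (p : ℕ) (P : Subgroup G), p.Prime → IsClosed (P : Set G) →
    ProP p P → (∀ H : Subgroup G, IsClosed (H : Set G) → H ≤ P → TFG H) → MaxC P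

/-- (MFG) With max every closed subgroup is finitely generated. -/
def S_MFG : Prop :=
  ∀ (G : Type u) [Group G] [TopologicalSpace G] [IsTopologicalGroup G] [CompactSpace G]
    [TotallyDisconnectedSpace G] (B : Subgroup G), MaxC B →
    ∀ H : Subgroup G, IsClosed (H : Set G) → H ≤ B → TFG H

end Pool.Agent.J4H12.MX
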