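import Pool.Agent.J4H12.MX.Fin
import Pool.Agent.J4H12.MX.Stm2

set_option autoImplicit false

universe u

namespace Pool.Agent.J4H12.MX

variable {G : Type u} [Group G] [TopologicalSpace G] [IsTopologicalGroup G] [CompactSpace G]
  [TotallyDisconnectedSpace G]

/-- The theorem, from the statements. -/
theorem main2 (hSYL : S_SYL.{u}) (hPTA : S_PTA.{u}) (hPHI : S_PHI.{u})
    (hBQ : S_BQ.{u}) (hSLE : S_SLE.{u}) (hNSY : S_NSY.{u}) (hTOWF : S_TOWF.{u})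
    (hTOWI : S_TOWI.{u}) (hCHN : S_CHN.{u}) (hDIR : S_DIR.{u}) (hCNV : S_CNV.{u})
    (hFGM : S_FGM.{u}) (hMFG : S_MFG.{u}) :
    (MaxC (⊤ : Subgroup G) ↔ {p : ℕ | p.Prime ∧ Dv p (⊤ : Subgroup G)}.Finite ∧
      ∀ (p : ℕ) (H : Subgroup G), p.Prime → IsClosed (H : Set G) → ProP p H → TFG H) ∧
    (MaxC (⊤ : Subgroup G) ↔
      ∃ (s : Finset ℕ) (M : Subgroup G) (R : ℕ → Subgroup G), (∀ p ∈ s, p.Prime) ∧ ON M ∧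
      (∀ p ∈ s, IsClosed (R p : Set G) ∧ (R p).Normal ∧ ProP p (R p) ∧ MaxC (R p)) ∧
      (∀ p ∈ s, ∀ q ∈ s, p ≠ q → ∀ x ∈ R p, ∀ y ∈ R q, x * y = y * x) ∧
      (∀ p ∈ s, R p ⊓ ⨆ q ∈ s.erase p, R q = ⊥) ∧ M = ⨆ p ∈ s, R p) := by
  obtain ⟨h1, h2⟩ := main (G := G) hSYL hPTA hPHI hBQ hSLE hNSY hTOWF hTOWI hCHN hDIR hCNV
  refine ⟨⟨fun h => ⟨(h1.1 h).1, fun p H _ hH _ => hMFG G ⊤ h H hH le_top⟩, ?_⟩, h2⟩
  rintro ⟨ha, hb⟩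
  refine h1.2 ⟨ha, fun p P hp hP => ?_⟩
  exact hFGM G p P hp hP.closed hP.prop fun H hH hHP =>
    hb p H hp hH fun x hx => hP.prop x (hHP hx)

end Pool.Agent.J4H12.MX
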