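import Pool.Agent.J4H12.MX.Towf

set_option autoImplicit false

universe u

namespace Pool.Agent.J4H12.MX

theorem finite_index {G : Type u} [Group G] [TopologicalSpace G] [IsTopologicalGroup G]
    [CompactSpace G] {U H : Subgroup G} (hU : ON U) (h : U ≤ H) : H.index ≠ 0 := by
  have h1 : IsOpen (H : Set G) := Subgroup.isOpen_mono h hU.2
  have : Finite (G ⧸ H) := H.quotient_finite_of_isOpen h1
  exact Subgroup.index_ne_zero_of_finite

theorem coprime_one' {G : Type u} [Group G] {x : G} {m n : ℕ} (hc : Nat.Coprime m n)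
    {U : Subgroup G} (hm : x ^ m ∈ U) (hn : x ^ n ∈ U) : x ∈ U := by
  have h := Nat.gcd_eq_gcd_ab m n
  have h1 : Nat.gcd m n = 1 := hc
  rw [h1] at h
  have : x = x ^ ((1 : ℤ)) := by simp
  rw [this]
  have h2 : ((1 : ℕ) : ℤ) = 1 := rfl
  rw [← h2, h, zpow_add, zpow_mul, zpow_mul, zpow_natCast, zpow_natCast]
  exact U.mul_mem (U.zpow_mem hm _) (U.zpow_mem hn _)

/-- In a group with a normal subgroup `V` of index prime to `p`, an element of `p`-power order
modulo `V` lies in `V`. -/
theorem mem_of_index {G : Type u} [Group G] {p : ℕ} (hp : p.Prime) {V : Subgroup G}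
    (hV : V.Normal) (h0 : V.index ≠ 0) (hd : ¬ p ∣ V.index) {x : G} {k : ℕ}
    (hx : x ^ p ^ k ∈ V) : x ∈ V := by
  have h1 : x ^ V.index ∈ V := V.pow_index_mem x
  exact coprime_one' ((hp.coprime_iff_not_dvd.2 hd).pow_left k) hx h1

theorem t_SLE : S_SLE.{u} := by
  intro G _ _ _ _ _ p K P hp hKc hKn hK hP x hx
  refine mem_of_forall hKc fun U hU => ?_
  have := hU.1
  obtain ⟨k, hk⟩ := hP.prop x hx U hU
  exact mem_of_index hp (Subgroup.sup_normal K U) (finite_index hU le_sup_right) (hK U hU)
    ((le_sup_right : U ≤ K ⊔ U) hk)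

/-- If every element of the normal subgroup `R` has `p`-power order modulo `H`..., then the index of
`H` in `R H` is a power of `p`; hence it is `1` if `p` does not divide the index of `H`. -/
theorem t_NSY : S_NSY.{u} := by
  intro G _ _ _ _ _ p R P hp hRc hRn hR hP
  have key : ∀ U : Subgroup G, ON U → R ≤ P ⊔ U := by
    intro U hU
    have hUn := hU.1
    have hidx : ¬ p ∣ (P ⊔ U).index := by
      have := hP.idx U hU
      rwa [Subgroup.relIndex_top_right] at this
    have h0 : (P ⊔ U).index ≠ 0 := finite_index hU le_sup_right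
    -- the index of `P U` in `R P U` divides a power of `p`
    have h1 : (P ⊔ U).relIndex (P ⊔ U ⊔ R) ∣ (P ⊔ U).index :=
      Subgroup.relIndex_dvd_index_of_le le_sup_left
    have h2 : (P ⊔ U).relIndex R = (P ⊔ U).relIndex (P ⊔ U ⊔ R) := by
      refine relIndex_eq_of le_sup_right ?_
      intro e he
      obtain ⟨d, hd, r, hr, rfl⟩ := Subgroup.mem_sup_of_normal_left.1
        (by rwa [sup_comm] at he : e ∈ R ⊔ (P ⊔ U))
      exact ⟨d, hd, by rwa [inv_mul_cancel_left]⟩
    -- `R / (R ∩ (P ⊔ U))`: compare with `R / (R ∩ U)`, a `p`-group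
    have h3 : (P ⊔ U).relIndex R ∣ U.relIndex R := Subgroup.relIndex_dvd_of_le_left _ le_sup_right
    have h4 : IsPGroup p (R ⧸ U.subgroupOf R) := by
      intro y
      induction y using QuotientGroup.induction_on with
      | H y =>
        obtain ⟨k, hk⟩ := hR y y.2 U hU
        refine ⟨k, ?_⟩
        rw [← QuotientGroup.mk_pow, QuotientGroup.eq_one_iff, Subgroup.mem_subgroupOf]
        exact hk
    have hfin : Finite (R ⧸ U.subgroupOf R) := by
      have : U.relIndex R ≠ 0 := by
        intro h
        exact finite_index hU le_rfl (Subgroup.index_eq_zero_of_relIndex_eq_zero h)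
      exact Subgroup.index_ne_zero_iff_finite.1 this
    haveI : Fact p.Prime := ⟨hp⟩
    obtain ⟨n, hn⟩ := IsPGroup.iff_card.1 h4
    have h5 : U.relIndex R = p ^ n := by
      rw [Subgroup.relIndex, Subgroup.index_eq_card]; exact hn
    rw [h5] at h3
    obtain ⟨m, -, hm⟩ := (Nat.dvd_prime_pow hp).1 h3
    rw [← h2, hm] at h1
    have h6 : m = 0 := by
      by_contra hm0
      exact hidx ((dvd_pow_self p hm0).trans h1)
    rw [h6, pow_zero] at hm
    exact Subgroup.relIndex_eq_one.1 hm
  intro x hx
  exact mem_of_forall hP.closed fun U hU => key U hU hx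

end Pool.Agent.J4H12.MX
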