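import Pool.Agent.J4H12.MX.Fin2
import Pool.Agent.J4H12.MX.Sle
import Pool.Agent.J4H63.MX.Syl
import Pool.Agent.J4H63.MX.Fra
import Pool.Agent.J4H45.MX.Cnj
import Pool.Agent.J4H62.MX.Lsy
import Pool.Agent.J4H23.MX.Phi
import Pool.Agent.J4H31.MX.Pta
import Pool.Agent.J4H96.MX.Bq
import Pool.Agent.J4H96.MX.Towi
import Pool.Agent.J4H96.MX.Cnv
import Pool.Agent.J4H36.MX.Chn
import Pool.Agent.J4H18.MX.Dir

set_option autoImplicit false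

universe u

namespace Pool.Agent.J4H12.MX

/-- The theorem, from `TAT`, `FGM` and `MFG`. -/
theorem main3 (hTAT : S_TAT.{u}) (hFGM : S_FGM.{u}) (hMFG : S_MFG.{u})
    (G : Type u) [Group G] [TopologicalSpace G] [IsTopologicalGroup G] [CompactSpace G]
    [TotallyDisconnectedSpace G] :
    (MaxC (⊤ : Subgroup G) ↔ {p : ℕ | p.Prime ∧ Dv p (⊤ : Subgroup G)}.Finite ∧
      ∀ (p : ℕ) (H : Subgroup G), p.Prime → IsClosed (H : Set G) → ProP p H → TFG H) ∧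
    (MaxC (⊤ : Subgroup G) ↔
      ∃ (s : Finset ℕ) (M : Subgroup G) (R : ℕ → Subgroup G), (∀ p ∈ s, p.Prime) ∧ ON M ∧
      (∀ p ∈ s, IsClosed (R p : Set G) ∧ (R p).Normal ∧ ProP p (R p) ∧ MaxC (R p)) ∧
      (∀ p ∈ s, ∀ q ∈ s, p ≠ q → ∀ x ∈ R p, ∀ y ∈ R q, x * y = y * x) ∧
      (∀ p ∈ s, R p ⊓ ⨆ q ∈ s.erase p, R q = ⊥) ∧ M = ⨆ p ∈ s, R p) := by
  have hPTA : S_PTA.{u} := Pool.Agent.J4H31.MX.t_PTA hTAT
  have hSYL : S_SYL.{u} := Pool.Agent.J4H63.MX.t_SYL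
  have hCNJ : S_CNJ.{u} := Pool.Agent.J4H45.MX.t_CNJ
  have hFRA : S_FRA.{u} := Pool.Agent.J4H63.MX.t_FRA hCNJ
  have hTOWF : S_TOWF.{u} := t_TOWF hSYL hCNJ hFRA Pool.Agent.J4H62.MX.t_LSY
  exact main2 hSYL hPTA Pool.Agent.J4H23.MX.t_PHI Pool.Agent.J4H96.MX.t_BQ t_SLE t_NSY hTOWF
    Pool.Agent.J4H96.MX.t_TOWI Pool.Agent.J4H36.MX.t_CHN Pool.Agent.J4H18.MX.t_DIR
    Pool.Agent.J4H96.MX.t_CNV hFGM hMFG

end Pool.Agent.J4H12.MX
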