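import Pool.Agent.J4H12.MX.Stm

set_option autoImplicit false

universe u

namespace Pool.Agent.J4H12.MX

variable {G : Type u} [Group G] [TopologicalSpace G]

theorem MaxC.mono {A B : Subgroup G} (h : A ≤ B) (hB : MaxC B) : MaxC A :=
  fun f hf hc hle => hB f hf hc fun n => (hle n).trans h

theorem not_bot_of_Dv {p : ℕ} {P : Subgroup G} (hD : Dv p (⊤ : Subgroup G))
    (hP : Syl p ⊤ P) : P ≠ ⊥ := by
  rintro rfl
  obtain ⟨U, hU, hd⟩ := hD
  have := hP.idx U hU
  rw [bot_sup_eq] at this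
  exact this hd

section top
variable [IsTopologicalGroup G] [CompactSpace G] [TotallyDisconnectedSpace G]

theorem eq_one_of_forall {x : G} (h : ∀ U : Subgroup G, ON U → x ∈ U) : x = 1 := by
  by_contra hx
  have h1 : IsOpen ({x}ᶜ : Set G) := isOpen_compl_singleton
  obtain ⟨H, hH⟩ := ProfiniteGrp.exist_openNormalSubgroup_sub_open_nhds_of_one h1
    (by simpa using Ne.symm hx)
  have := h H.toSubgroup ⟨H.isNormal', H.isOpen'⟩
  exact hH this rfl

theorem mem_of_forall {H : Subgroup G} (hH : IsClosed (H : Set G)) {x : G}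
    (h : ∀ U : Subgroup G, ON U → x ∈ H ⊔ U) : x ∈ H := by
  by_contra hx
  have h1 : IsOpen ((fun y => x * y⁻¹) ⁻¹' ((H : Set G)ᶜ)) :=
    hH.isOpen_compl.preimage (by fun_prop)
  obtain ⟨U, hU⟩ := ProfiniteGrp.exist_openNormalSubgroup_sub_open_nhds_of_one h1
    (by simpa using hx)
  haveI : U.toSubgroup.Normal := U.isNormal'
  have h2 := h U.toSubgroup ⟨U.isNormal', U.isOpen'⟩
  obtain ⟨a, ha, b, hb, hab⟩ := Subgroup.mem_sup_of_normal_right.1 h2
  have h3 := hU (show b ∈ (U : Set G) from hb)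
  apply h3
  have : x * b⁻¹ = a := by rw [← hab]; group
  show x * b⁻¹ ∈ (H : Set G)
  rw [this]; exact ha

theorem coprime_one {x : G} {m n : ℕ} (hc : Nat.Coprime m n) {U : Subgroup G}
    (hm : x ^ m ∈ U) (hn : x ^ n ∈ U) : x ∈ U := by
  have h := Nat.gcd_eq_gcd_ab m n
  have h1 : Nat.gcd m n = 1 := hc
  rw [h1] at h
  have : x = x ^ ((1 : ℤ)) := by simp
  rw [this]
  have h2 : ((1 : ℕ) : ℤ) = 1 := rfl
  rw [← h2, h, zpow_add, zpow_mul, zpow_mul, zpow_natCast, zpow_natCast]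
  exact U.mul_mem (U.zpow_mem hm _) (U.zpow_mem hn _)

/-- (1) implies that finitely many primes divide the order. -/
theorem finite_of_max (hSYL : S_SYL.{u}) (hPTA : S_PTA.{u}) (hPHI : S_PHI.{u})
    (hBQ : S_BQ.{u}) (hSLE : S_SLE.{u}) (hTOWF : S_TOWF.{u}) (hTOWI : S_TOWI.{u})
    (hCHN : S_CHN.{u}) (hmax : MaxC (⊤ : Subgroup G)) :
    {p : ℕ | p.Prime ∧ Dv p (⊤ : Subgroup G)}.Finite := by
  by_contra hinf
  have hinf' : {p : ℕ | p.Prime ∧ Dv p (⊤ : Subgroup G)}.Infinite := hinf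
  have key : ∀ p : ℕ, p.Prime → ∃ (P K : Subgroup G) (B : Set ℕ), B.Finite ∧ Syl p ⊤ P ∧
      IsClosed (K : Set G) ∧ K.Normal ∧ ¬ Dv p K ∧
      ∀ r : ℕ, r.Prime → r ∉ B → ∀ U : Subgroup G, ON U → ¬ r ∣ (K ⊔ U).index := by
    intro p hp
    obtain ⟨P, hP⟩ := hSYL G p ⊤ hp isClosed_univ
    obtain ⟨N, hN, hN2⟩ := hPHI G p P hp hP.closed hP.prop (hmax.mono le_top)
    obtain ⟨K, hKc, hKn, hKN, hKD, hK⟩ := hPTA G p P N hp hP hN hN2
    refine ⟨P, K, _, hBQ G p N K hp hN hKc hKn hKN hK, hP, hKc, hKn, hKD, ?_⟩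
    intro r hr hrB U hU hd
    exact hrB ⟨hr, U, hU, hd⟩
  choose! P K B hB hP hKc hKn hKD hr using key
  obtain ⟨q, hq1, hq2⟩ := exists_seq_of_forall_finset_exists
    (fun x : ℕ => x.Prime ∧ Dv x (⊤ : Subgroup G)) (fun x y => y ∉ B x ∧ x ≠ y) (by
      intro s hs
      have hfin : (⋃ x ∈ s, (B x ∪ {x})).Finite :=
        s.finite_toSet.biUnion fun x hx => (hB x (hs x hx).1).union (Set.finite_singleton x)
      obtain ⟨y, hy1, hy2⟩ := (hinf'.diff hfin).nonempty
      refine ⟨y, hy1, fun x hx => ?_⟩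
      constructor
      · intro h
        exact hy2 (Set.mem_biUnion hx (Or.inl h))
      · intro h
        exact hy2 (Set.mem_biUnion hx (Or.inr h.symm)))
  have hqp : ∀ i, (q i).Prime := fun i => (hq1 i).1
  have hPK : ∀ j k, j < k → P (q k) ≤ K (q j) := by
    intro j k hjk
    exact hSLE G (q k) (K (q j)) (P (q k)) (hqp k) (hKc _ (hqp j)) (hKn _ (hqp j))
      (hr _ (hqp j) _ (hqp k) (hq2 j k hjk).1) (hP _ (hqp k))
  obtain ⟨g, hg⟩ := hTOWI G (fun i => P (q i)) (fun i => (hP _ (hqp i)).closed)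
    (hTOWF G q (fun i => K (q i)) (fun i => P (q i)) hqp (fun i => hKc _ (hqp i))
      (fun i => hKn _ (hqp i)) (fun i => hKD _ (hqp i)) (fun i => hP _ (hqp i)) hPK)
  let Q : ℕ → Subgroup G := fun i => (P (q i)).comap (MulAut.conj (g i)⁻¹).toMonoidHom
  have hmem : ∀ i x, x ∈ Q i ↔ (g i)⁻¹ * x * g i ∈ P (q i) := by
    intro i x
    simp [Q, Subgroup.mem_comap]
  have hinj : Function.Injective q := by
    intro a b hab
    rcases lt_trichotomy a b with h | h | h
    · exact absurd hab (hq2 a b h).2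
    · exact h
    · exact absurd hab.symm (hq2 b a h).2
  refine hCHN G q Q hqp hinj ?_ ?_ ?_ ?_ hmax
  · intro i
    have : (Q i : Set G) = (fun x => (g i)⁻¹ * x * g i) ⁻¹' (P (q i) : Set G) := by
      ext x; exact hmem i x
    rw [this]
    exact (hP _ (hqp i)).closed.preimage (by fun_prop)
  · intro i x hx U hU
    obtain ⟨k, hk⟩ := (hP _ (hqp i)).prop _ ((hmem i x).1 hx) U hU
    refine ⟨k, ?_⟩
    haveI := hU.1
    have h1 : ((g i)⁻¹ * x * g i) ^ (q i) ^ k = (g i)⁻¹ * x ^ (q i) ^ k * g i := by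
      have := conj_pow (a := (g i)⁻¹) (b := x) (i := (q i) ^ k)
      simpa using this
    rw [h1] at hk
    have h2 := hU.1.conj_mem _ hk (g i)
    simpa [mul_assoc] using h2
  · intro i h
    apply not_bot_of_Dv (hq1 i).2 (hP _ (hqp i))
    rw [eq_bot_iff]
    intro x hx
    have h1 : g i * x * (g i)⁻¹ ∈ Q i := by
      rw [hmem]; simpa [mul_assoc] using hx
    rw [h, Subgroup.mem_bot] at h1
    rw [Subgroup.mem_bot]
    have h2 : x = (g i)⁻¹ * (g i * x * (g i)⁻¹) * g i := by group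
    rw [h2, h1]; group
  · intro j k hjk x hx y hy
    rw [hmem] at hx hy ⊢
    have h1 := hg j k hjk _ hx _ hy
    have h2 : (g k)⁻¹ * ((g j * ((g j)⁻¹ * x * g j) * (g j)⁻¹) *
        (g k * ((g k)⁻¹ * y * g k) * (g k)⁻¹) * (g j * ((g j)⁻¹ * x * g j) * (g j)⁻¹)⁻¹) * g k =
        (g k)⁻¹ * (x * y * x⁻¹) * g k := by group
    rwa [h2] at h1

/-- Normal pro-`p` and pro-`q` subgroups commute. -/
theorem commute_of {p q : ℕ} (hp : p.Prime) (hq : q.Prime) (hpq : p ≠ q) {A B : Subgroup G}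
    (hA : A.Normal) (hB : B.Normal) (hAp : ProP p A) (hBq : ProP q B) :
    ∀ x ∈ A, ∀ y ∈ B, x * y = y * x := by
  intro x hx y hy
  have h1 : x * y * x⁻¹ * y⁻¹ = 1 := by
    apply eq_one_of_forall
    intro U hU
    have ha : x * y * x⁻¹ * y⁻¹ ∈ A := by
      have := A.mul_mem hx (hA.conj_mem _ (A.inv_mem hx) y)
      simpa [mul_assoc] using this
    have hb : x * y * x⁻¹ * y⁻¹ ∈ B := B.mul_mem (hB.conj_mem _ hy x) (B.inv_mem hy)
    obtain ⟨k, hk⟩ := hAp _ ha U hU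
    obtain ⟨l, hl⟩ := hBq _ hb U hU
    exact coprime_one (Nat.Coprime.pow k l ((Nat.coprime_primes hp hq).2 hpq)) hk hl
  have h2 : x * y = (x * y * x⁻¹ * y⁻¹) * (y * x) := by group
  rw [h2, h1, one_mul]

theorem iSup_pow {s : Finset ℕ} {R : ℕ → Subgroup G} (hs : ∀ p ∈ s, p.Prime)
    (hR : ∀ p ∈ s, (R p).Normal ∧ ProP p (R p)) :
    ∀ x ∈ ⨆ p ∈ s, R p, ∀ U : Subgroup G, ON U → ∃ k : ℕ, x ^ (∏ p ∈ s, p) ^ k ∈ U := by
  classical
  induction s using Finset.induction_on with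
  | empty =>
    intro x hx U hU
    simp only [Finset.notMem_empty, iSup_false, iSup_bot, Subgroup.mem_bot] at hx
    exact ⟨0, by rw [hx]; simp [U.one_mem]⟩
  | insert a t ha ih =>
    intro x hx U hU
    rw [Finset.iSup_insert] at hx
    haveI := (hR a (Finset.mem_insert_self a t)).1
    obtain ⟨y, hy, z, hz, rfl⟩ := Subgroup.mem_sup_of_normal_left.1 hx
    obtain ⟨k, hk⟩ := (hR a (Finset.mem_insert_self a t)).2 y hy U hU
    obtain ⟨l, hl⟩ := ih (fun p hp => hs p (Finset.mem_insert_of_mem hp))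
      (fun p hp => hR p (Finset.mem_insert_of_mem hp)) z hz U hU
    -- `y` commutes with `z`
    have hcom : Commute y z := by
      have hle : (⨆ p ∈ t, R p) ≤ Subgroup.centralizer {y} := by
        refine iSup₂_le fun p hp w hw => ?_
        rw [Subgroup.mem_centralizer_singleton_iff]
        have := commute_of (hs a (Finset.mem_insert_self a t))
          (hs p (Finset.mem_insert_of_mem hp)) (fun h => ha (h ▸ hp))
          (hR a (Finset.mem_insert_self a t)).1 (hR p (Finset.mem_insert_of_mem hp)).1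
          (hR a (Finset.mem_insert_self a t)).2 (hR p (Finset.mem_insert_of_mem hp)).2 y hy w hw
        exact this.symm
      have := hle hz
      rw [Subgroup.mem_centralizer_singleton_iff] at this
      exact this.symm
    refine ⟨k + l, ?_⟩
    rw [hcom.mul_pow]
    refine U.mul_mem ?_ ?_
    · rw [Finset.prod_insert ha, mul_pow, pow_add, mul_assoc, pow_mul]
      exact U.pow_mem hk _
    · rw [Finset.prod_insert ha, mul_pow, mul_comm, pow_add, mul_comm ((∏ p ∈ t, p) ^ k),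
        mul_assoc, pow_mul]
      exact U.pow_mem hl _

theorem indep_of {s : Finset ℕ} {R : ℕ → Subgroup G} (hs : ∀ p ∈ s, p.Prime)
    (hR : ∀ p ∈ s, (R p).Normal ∧ ProP p (R p)) (p : ℕ) (hp : p ∈ s) :
    R p ⊓ ⨆ q ∈ s.erase p, R q = ⊥ := by
  rw [eq_bot_iff]
  rintro x ⟨hx1, hx2⟩
  rw [Subgroup.mem_bot]
  apply eq_one_of_forall
  intro U hU
  obtain ⟨k, hk⟩ := (hR p hp).2 x hx1 U hU
  obtain ⟨l, hl⟩ := iSup_pow (fun q hq => hs q (Finset.mem_of_mem_erase hq))
    (fun q hq => hR q (Finset.mem_of_mem_erase hq)) x hx2 U hU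
  refine coprime_one (Nat.Coprime.pow k l ?_) hk hl
  rw [Nat.coprime_prod_right_iff]
  intro q hq
  exact (Nat.coprime_primes (hs p hp) (hs q (Finset.mem_of_mem_erase hq))).2
    (fun h => (Finset.ne_of_mem_erase hq) h.symm)

end top

end Pool.Agent.J4H12.MX
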