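import Mathlib

/-!
# Profinite groups with the maximum condition on closed subgroups (MP_c2f9c6_al): statements

All subgroups are subgroups of one profinite group `G`; `ON U` : `U` is an open normal subgroup.
-/

set_option autoImplicit false

universe u

namespace Pool.Agent.J4H12.MX

/-- The maximum condition for the closed subgroups of `G` that are contained in `B`: every
ascending sequence of closed subgroups of `G` contained in `B` becomes constant. -/
def MaxC {G : Type u} [Group G] [TopologicalSpace G] (B : Subgroup G) : Prop :=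
  ∀ f : ℕ → Subgroup G, Monotone f → (∀ n, IsClosed (f n : Set G)) → (∀ n, f n ≤ B) →
    ∃ n, ∀ m, n ≤ m → f m = f n

/-- `U` is an open normal subgroup of `G`. -/
def ON {G : Type u} [Group G] [TopologicalSpace G] (U : Subgroup G) : Prop :=
  U.Normal ∧ IsOpen (U : Set G)

/-- `P` is a pro-`p` subgroup: in every finite quotient `G/U` the image of every element of `P`
has order a power of `p`. -/
def ProP {G : Type u} [Group G] [TopologicalSpace G] (p : ℕ) (P : Subgroup G) : Prop :=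
  ∀ x ∈ P, ∀ U : Subgroup G, ON U → ∃ k : ℕ, x ^ p ^ k ∈ U

/-- `p` divides the order of `K`: for some open normal subgroup `U` of `G` the number `p` divides
`|K/(K ∩ U)|`. -/
def Dv {G : Type u} [Group G] [TopologicalSpace G] (p : ℕ) (K : Subgroup G) : Prop :=
  ∃ U : Subgroup G, ON U ∧ p ∣ U.relIndex K

/-- `P` is a Sylow `p`-subgroup of `K`: a closed pro-`p` subgroup of `K` such that `p` does not
divide the index of `PU` in `KU` for any open normal subgroup `U`. -/
structure Syl {G : Type u} [Group G] [TopologicalSpace G] (p : ℕ) (K P : Subgroup G) : Prop where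
  closed : IsClosed (P : Set G)
  le : P ≤ K
  prop : ProP p P
  idx : ∀ U : Subgroup G, ON U → ¬ p ∣ (P ⊔ U).relIndex K

/-- `M` is normalised by every element of `P`. -/
def Nz {G : Type u} [Group G] (P M : Subgroup G) : Prop :=
  ∀ x ∈ P, ∀ m ∈ M, x * m * x⁻¹ ∈ M

/-- (SYL) Sylow subgroups exist. -/
def S_SYL : Prop :=
  ∀ (G : Type u) [Group G] [TopologicalSpace G] [IsTopologicalGroup G] [CompactSpace G]
    [TotallyDisconnectedSpace G] (p : ℕ) (K : Subgroup G), p.Prime → IsClosed (K : Set G) →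
    ∃ P : Subgroup G, Syl p K P

/-- (CNJ) Sylow subgroups are conjugate. -/
def S_CNJ : Prop :=
  ∀ (G : Type u) [Group G] [TopologicalSpace G] [IsTopologicalGroup G] [CompactSpace G]
    [TotallyDisconnectedSpace G] (p : ℕ) (K P Q : Subgroup G), p.Prime → IsClosed (K : Set G) →
    Syl p K P → Syl p K Q → ∃ k ∈ K, ∀ x, x ∈ Q ↔ k⁻¹ * x * k ∈ P

/-- (FRA) The Frattini argument. -/
def S_FRA : Prop :=
  ∀ (G : Type u) [Group G] [TopologicalSpace G] [IsTopologicalGroup G] [CompactSpace G]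
    [TotallyDisconnectedSpace G] (p : ℕ) (L D P : Subgroup G), p.Prime → IsClosed (L : Set G) →
    IsClosed (D : Set G) → D ≤ L → Nz L D → Syl p D P →
    ∀ l ∈ L, ∃ d ∈ D, ∃ n ∈ L, l = d * n ∧ ∀ x, x ∈ P ↔ n * x * n⁻¹ ∈ P

/-- (TAT) A special case of Tate's theorem on normal `p`-complements, for finite groups. -/
def S_TAT : Prop :=
  ∀ (G : Type u) [Group G] [Finite G] (p : ℕ) (P N : Subgroup G), p.Prime → IsPGroup p P →
    ¬ p ∣ P.index → N.Normal →
    (∀ M : Subgroup G, M ≤ P → M.relIndex P = p → Nz P M → N ⊓ P ≤ M) →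
    ∃ K : Subgroup G, K.Normal ∧ K ≤ N ∧ ¬ p ∣ Nat.card K ∧ ∀ x ∈ N, ∃ k : ℕ, x ^ p ^ k ∈ K

/-- (PTA) The same for profinite groups. -/
def S_PTA : Prop :=
  ∀ (G : Type u) [Group G] [TopologicalSpace G] [IsTopologicalGroup G] [CompactSpace G]
    [TotallyDisconnectedSpace G] (p : ℕ) (P N : Subgroup G), p.Prime → Syl p ⊤ P → ON N →
    (∀ M : Subgroup G, IsClosed (M : Set G) → M ≤ P → M.relIndex P = p → Nz P M → N ⊓ P ≤ M) →
    ∃ K : Subgroup G, IsClosed (K : Set G) ∧ K.Normal ∧ K ≤ N ∧ ¬ Dv p K ∧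
      ∀ x ∈ N, ∀ U : Subgroup G, ON U → ∃ k : ℕ, x ^ p ^ k ∈ K ⊔ U

/-- (PHI) The Frattini subgroup of a pro-`p` group with max is open. -/
def S_PHI : Prop :=
  ∀ (G : Type u) [Group G] [TopologicalSpace G] [IsTopologicalGroup G] [CompactSpace G]
    [TotallyDisconnectedSpace G] (p : ℕ) (P : Subgroup G), p.Prime → IsClosed (P : Set G) →
    ProP p P → MaxC P →
    ∃ N : Subgroup G, ON N ∧
      ∀ M : Subgroup G, IsClosed (M : Set G) → M ≤ P → M.relIndex P = p → Nz P M → N ⊓ P ≤ M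

/-- (BQ) Only finitely many primes divide the order of `G/K`. -/
def S_BQ : Prop :=
  ∀ (G : Type u) [Group G] [TopologicalSpace G] [IsTopologicalGroup G] [CompactSpace G]
    [TotallyDisconnectedSpace G] (p : ℕ) (N K : Subgroup G), p.Prime → ON N →
    IsClosed (K : Set G) → K.Normal → K ≤ N →
    (∀ x ∈ N, ∀ U : Subgroup G, ON U → ∃ k : ℕ, x ^ p ^ k ∈ K ⊔ U) →
    {r : ℕ | r.Prime ∧ ∃ U : Subgroup G, ON U ∧ r ∣ (K ⊔ U).index}.Finite

/-- (SLE) A closed normal subgroup `K` such that the prime `p` does not divide the order of `G/K`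
contains the Sylow `p`-subgroups of `G`. -/
def S_SLE : Prop :=
  ∀ (G : Type u) [Group G] [TopologicalSpace G] [IsTopologicalGroup G] [CompactSpace G]
    [TotallyDisconnectedSpace G] (p : ℕ) (K P : Subgroup G), p.Prime → IsClosed (K : Set G) →
    K.Normal → (∀ U : Subgroup G, ON U → ¬ p ∣ (K ⊔ U).index) → Syl p ⊤ P → P ≤ K

/-- (NSY) A closed normal pro-`p` subgroup is contained in every Sylow `p`-subgroup. -/
def S_NSY : Prop :=
  ∀ (G : Type u) [Group G] [TopologicalSpace G] [IsTopologicalGroup G] [CompactSpace G]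
    [TotallyDisconnectedSpace G] (p : ℕ) (R P : Subgroup G), p.Prime → IsClosed (R : Set G) →
    R.Normal → ProP p R → Syl p ⊤ P → R ≤ P

/-- (LSY) If `L K = G`, where `K` is closed, normal and of order prime to `p`, then the Sylow
`p`-subgroups of the closed subgroup `L` are Sylow subgroups of `G`. -/
def S_LSY : Prop :=
  ∀ (G : Type u) [Group G] [TopologicalSpace G] [IsTopologicalGroup G] [CompactSpace G]
    [TotallyDisconnectedSpace G] (p : ℕ) (L K R : Subgroup G), p.Prime → IsClosed (L : Set G) →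
    IsClosed (K : Set G) → K.Normal → ¬ Dv p K → L ⊔ K = ⊤ → Syl p L R → Syl p ⊤ R

/-- (TOWF) Finite towers of Sylow subgroups. -/
def S_TOWF : Prop :=
  ∀ (G : Type u) [Group G] [TopologicalSpace G] [IsTopologicalGroup G] [CompactSpace G]
    [TotallyDisconnectedSpace G] (q : ℕ → ℕ) (K P : ℕ → Subgroup G), (∀ i, (q i).Prime) →
    (∀ i, IsClosed (K i : Set G)) → (∀ i, (K i).Normal) → (∀ i, ¬ Dv (q i) (K i)) →
    (∀ i, Syl (q i) ⊤ (P i)) → (∀ j k, j < k → P k ≤ K j) →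
    ∀ m : ℕ, ∃ g : ℕ → G, ∀ j k, j < k → k < m → ∀ x ∈ P j, ∀ y ∈ P k,
      (g k)⁻¹ * ((g j * x * (g j)⁻¹) * (g k * y * (g k)⁻¹) * (g j * x * (g j)⁻¹)⁻¹) * g k ∈ P k

/-- (TOWI) From finite towers to infinite towers, by compactness. -/
def S_TOWI : Prop :=
  ∀ (G : Type u) [Group G] [TopologicalSpace G] [IsTopologicalGroup G] [CompactSpace G]
    [TotallyDisconnectedSpace G] (P : ℕ → Subgroup G), (∀ i, IsClosed (P i : Set G)) →
    (∀ m : ℕ, ∃ g : ℕ → G, ∀ j k, j < k → k < m → ∀ x ∈ P j, ∀ y ∈ P k,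
      (g k)⁻¹ * ((g j * x * (g j)⁻¹) * (g k * y * (g k)⁻¹) * (g j * x * (g j)⁻¹)⁻¹) * g k ∈ P k) →
    ∃ g : ℕ → G, ∀ j k, j < k → ∀ x ∈ P j, ∀ y ∈ P k,
      (g k)⁻¹ * ((g j * x * (g j)⁻¹) * (g k * y * (g k)⁻¹) * (g j * x * (g j)⁻¹)⁻¹) * g k ∈ P k

/-- (CHN) An infinite tower contradicts the maximum condition. -/
def S_CHN : Prop :=
  ∀ (G : Type u) [Group G] [TopologicalSpace G] [IsTopologicalGroup G] [CompactSpace G]
    [TotallyDisconnectedSpace G] (q : ℕ → ℕ) (Q : ℕ → Subgroup G), (∀ i, (q i).Prime) →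
    Function.Injective q → (∀ i, IsClosed (Q i : Set G)) → (∀ i, ProP (q i) (Q i)) →
    (∀ i, Q i ≠ ⊥) → (∀ j k, j < k → Nz (Q j) (Q k)) → ¬ MaxC (⊤ : Subgroup G)

/-- (DIR) The direct decomposition. -/
def S_DIR : Prop :=
  ∀ (G : Type u) [Group G] [TopologicalSpace G] [IsTopologicalGroup G] [CompactSpace G]
    [TotallyDisconnectedSpace G] (s : Finset ℕ) (N K : ℕ → Subgroup G), (∀ p ∈ s, p.Prime) →
    (∀ p : ℕ, p.Prime → Dv p (⊤ : Subgroup G) → p ∈ s) →
    (∀ p ∈ s, ON (N p) ∧ IsClosed (K p : Set G) ∧ (K p).Normal ∧ K p ≤ N p ∧ ¬ Dv p (K p) ∧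
      ∀ x ∈ N p, ∀ U : Subgroup G, ON U → ∃ k : ℕ, x ^ p ^ k ∈ K p ⊔ U) →
    ∃ (M : Subgroup G) (R : ℕ → Subgroup G), ON M ∧
      (∀ p ∈ s, IsClosed (R p : Set G) ∧ (R p).Normal ∧ ProP p (R p)) ∧ M = ⨆ p ∈ s, R p

/-- (CNV) The converse. -/
def S_CNV : Prop :=
  ∀ (G : Type u) [Group G] [TopologicalSpace G] [IsTopologicalGroup G] [CompactSpace G]
    [TotallyDisconnectedSpace G] (s : Finset ℕ) (M : Subgroup G) (R : ℕ → Subgroup G), ON M →
    (∀ p ∈ s, IsClosed (R p : Set G) ∧ (R p).Normal ∧ MaxC (R p)) → M = ⨆ p ∈ s, R p →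
    MaxC (⊤ : Subgroup G)

end Pool.Agent.J4H12.MX
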