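import Pool.Agent.J4H12.MX.Main

set_option autoImplicit false

universe u

namespace Pool.Agent.J4H12.MX

theorem relIndex_eq_of {G : Type u} [Group G] {H D E : Subgroup G} (h : D ≤ E)
    (hs : ∀ e ∈ E, ∃ d ∈ D, d⁻¹ * e ∈ H) : H.relIndex D = H.relIndex E := by
  rw [Subgroup.relIndex, Subgroup.relIndex, Subgroup.index_eq_card, Subgroup.index_eq_card]
  refine Nat.card_eq_of_bijective (Subgroup.quotientSubgroupOfEmbeddingOfLE H h)
    ⟨(Subgroup.quotientSubgroupOfEmbeddingOfLE H h).injective, ?_⟩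
  intro y
  induction y using QuotientGroup.induction_on with
  | H y =>
    obtain ⟨e, he⟩ := y
    obtain ⟨d, hd, hde⟩ := hs e he
    refine ⟨QuotientGroup.mk ⟨d, hd⟩, ?_⟩
    rw [Subgroup.quotientSubgroupOfEmbeddingOfLE_apply_mk, QuotientGroup.eq,
      Subgroup.mem_subgroupOf]
    exact hde

theorem relIndex_inf_of_le {G : Type u} [Group G] {H K L : Subgroup G} (h : K ≤ L) :
    (H ⊓ L).relIndex K = H.relIndex K := by
  rw [← Subgroup.inf_relIndex_right (H ⊓ L) K, ← Subgroup.inf_relIndex_right H K]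
  congr 1
  rw [inf_assoc, inf_eq_right.2 h]

section top
variable {G : Type u} [Group G] [TopologicalSpace G] [IsTopologicalGroup G] [CompactSpace G]
  [TotallyDisconnectedSpace G]

/-- A Sylow subgroup of `L` contained in `D ≤ L` is a Sylow subgroup of `D`. -/
theorem Syl.of_le {p : ℕ} {L D R : Subgroup G} (hR : Syl p L R) (hDL : D ≤ L) (hRD : R ≤ D) :
    Syl p D R := by
  refine ⟨hR.closed, hRD, hR.prop, fun U hU hd => hR.idx U hU ?_⟩
  have := hU.1
  have h1 : (R ⊔ U).relIndex D = (R ⊔ U).relIndex (L ⊓ (D ⊔ U)) := by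
    refine relIndex_eq_of (le_inf hDL le_sup_left) ?_
    rintro e ⟨-, he⟩
    obtain ⟨d, hd, u, hu, rfl⟩ := Subgroup.mem_sup_of_normal_right.1 he
    refine ⟨d, hd, ?_⟩
    rw [inv_mul_cancel_left]
    exact (le_sup_right : U ≤ R ⊔ U) hu
  have h2 : ((R ⊔ U) ⊓ L).relIndex (L ⊓ (D ⊔ U)) * (L ⊓ (D ⊔ U)).relIndex L =
      ((R ⊔ U) ⊓ L).relIndex L :=
    Subgroup.relIndex_mul_relIndex _ _ _
      (le_inf inf_le_right (inf_le_left.trans (sup_le_sup_right hRD U))) inf_le_left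
  rw [relIndex_inf_of_le inf_le_left, relIndex_inf_of_le le_rfl, ← h1] at h2
  exact hd.trans ⟨_, h2.symm⟩

/-- `K 0 ∩ ... ∩ K (m-1)`. -/
def II (K : ℕ → Subgroup G) : ℕ → Subgroup G
  | 0 => ⊤
  | m + 1 => II K m ⊓ K m

theorem II_normal {K : ℕ → Subgroup G} (hK : ∀ i, (K i).Normal) : ∀ m, (II K m).Normal
  | 0 => inferInstanceAs (⊤ : Subgroup G).Normal
  | m + 1 => by
    have h1 := II_normal hK m
    have h2 := hK m
    exact ⟨fun n hn g => ⟨h1.conj_mem n hn.1 g, h2.conj_mem n hn.2 g⟩⟩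

theorem II_closed {K : ℕ → Subgroup G} (hK : ∀ i, IsClosed (K i : Set G)) :
    ∀ m, IsClosed (II K m : Set G)
  | 0 => isClosed_univ
  | m + 1 => (II_closed hK m).inter (hK m)

theorem le_II {K : ℕ → Subgroup G} {P : Subgroup G} :
    ∀ m, (∀ j, j < m → P ≤ K j) → P ≤ II K m
  | 0, _ => le_top
  | m + 1, h => le_inf (le_II m fun j hj => h j (by omega)) (h m (by omega))

theorem claim (hSYL : S_SYL.{u}) (hCNJ : S_CNJ.{u}) (hFRA : S_FRA.{u}) (hLSY : S_LSY.{u})
    (q : ℕ → ℕ) (K P : ℕ → Subgroup G) (hq : ∀ i, (q i).Prime)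
    (hKc : ∀ i, IsClosed (K i : Set G)) (hKn : ∀ i, (K i).Normal) (hKD : ∀ i, ¬ Dv (q i) (K i))
    (hP : ∀ i, Syl (q i) ⊤ (P i)) (hPK : ∀ j k, j < k → P k ≤ K j) :
    ∀ (m : ℕ) (L : Subgroup G), IsClosed (L : Set G) → L ⊔ II K m = ⊤ →
      ∃ g : ℕ → G, (∀ i, i < m → ∀ x ∈ P i, g i * x * (g i)⁻¹ ∈ L) ∧
        ∀ j k, j < k → k < m → ∀ x ∈ P j, ∀ y ∈ P k,
        (g k)⁻¹ * ((g j * x * (g j)⁻¹) * (g k * y * (g k)⁻¹) * (g j * x * (g j)⁻¹)⁻¹) * g k
          ∈ P k := by
  intro m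
  induction m with
  | zero =>
    intro L _ _
    exact ⟨fun _ => 1, fun i hi => by omega, fun j k _ hk => by omega⟩
  | succ m ih =>
    intro L hL hLI
    obtain ⟨R, hR⟩ := hSYL G (q m) L (hq m) hL
    have hLK : L ⊔ K m = ⊤ := by
      rw [eq_top_iff, ← hLI]
      exact sup_le_sup_left inf_le_right L
    have hLI' : L ⊔ II K m = ⊤ := by
      rw [eq_top_iff, ← hLI]
      exact sup_le_sup_left inf_le_left L
    have hR' := hLSY G (q m) L (K m) R (hq m) hL (hKc m) (hKn m) (hKD m) hLK hR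
    obtain ⟨c, -, hc⟩ := hCNJ G (q m) ⊤ (P m) R (hq m) isClosed_univ (hP m) hR'
    have hIn := II_normal hKn m
    have hRI : R ≤ II K m := by
      intro x hx
      have h1 := le_II (K := K) m (fun j hj => hPK j m hj) ((hc x).1 hx)
      have h2 := hIn.conj_mem _ h1 c
      simpa [mul_assoc] using h2
    have hD : IsClosed ((L ⊓ II K m : Subgroup G) : Set G) := hL.inter (II_closed hKc m)
    have hNz : Nz L (L ⊓ II K m) := fun l hl d hd =>
      ⟨L.mul_mem (L.mul_mem hl hd.1) (L.inv_mem hl), hIn.conj_mem _ hd.2 l⟩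
    have hRD : Syl (q m) (L ⊓ II K m) R := hR.of_le inf_le_left (le_inf hR.le hRI)
    have hF := hFRA G (q m) L (L ⊓ II K m) R (hq m) hL hD inf_le_left hNz hRD
    -- the normaliser
    let L' : Subgroup G := L ⊓ Subgroup.normalizer (R : Set G)
    have hL'mem : ∀ n, n ∈ L' ↔ n ∈ L ∧ ∀ x, x ∈ R ↔ n * x * n⁻¹ ∈ R := by
      intro n
      simp only [L', Subgroup.mem_inf, Subgroup.mem_normalizer_iff]
    have hL'c : IsClosed (L' : Set G) := by
      have h1 : (L' : Set G) = (L : Set G) ∩ ((⋂ x ∈ R, (fun n => n * x * n⁻¹) ⁻¹' (R : Set G)) ∩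
          (⋂ x ∈ R, (fun n => n⁻¹ * x * n) ⁻¹' (R : Set G))) := by
        ext n
        simp only [SetLike.mem_coe, hL'mem, Set.mem_inter_iff, Set.mem_iInter, Set.mem_preimage]
        constructor
        · rintro ⟨h1, h2⟩
          refine ⟨h1, fun x hx => (h2 x).1 hx, fun x hx => ?_⟩
          rw [h2]
          simpa [mul_assoc] using hx
        · rintro ⟨h1, h2, h3⟩
          refine ⟨h1, fun x => ⟨h2 x, fun hx => ?_⟩⟩
          have := h3 _ hx
          simpa [mul_assoc] using this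
      rw [h1]
      refine hL.inter (IsClosed.inter ?_ ?_)
      · exact isClosed_biInter fun x _ => hR.closed.preimage (by fun_prop)
      · exact isClosed_biInter fun x _ => hR.closed.preimage (by fun_prop)
    have hL'I : L' ⊔ II K m = ⊤ := by
      rw [eq_top_iff, ← hLI']
      refine sup_le ?_ le_sup_right
      intro l hl
      obtain ⟨d, hd, n, hn, rfl, hn2⟩ := hF l hl
      refine Subgroup.mul_mem _ ((le_sup_right : II K m ≤ L' ⊔ II K m) hd.2)
        ((le_sup_left : L' ≤ L' ⊔ II K m) ((hL'mem n).2 ⟨hn, hn2⟩))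
    obtain ⟨g, hg1, hg2⟩ := ih L' hL'c hL'I
    refine ⟨fun i => if i = m then c else g i, ?_, ?_⟩
    · intro i hi x hx
      by_cases h : i = m
      · subst h
        simp only [if_true]
        apply hR.le
        rw [hc]
        simpa [mul_assoc] using hx
      · simp only [h, if_false]
        exact ((hL'mem _).1 (hg1 i (by omega) x hx)).1
    · intro j k hjk hk x hx y hy
      have hj : j ≠ m := by omega
      by_cases h : k = m
      · subst h
        simp only [if_true, hj, if_false]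
        have h1 := ((hL'mem _).1 (hg1 j (by omega) x hx)).2
        rw [← hc, ← h1, hc]
        simpa [mul_assoc] using hy
      · simp only [h, hj, if_false]
        exact hg2 j k hjk (by omega) x hx y hy

end top

theorem t_TOWF (hSYL : S_SYL.{u}) (hCNJ : S_CNJ.{u}) (hFRA : S_FRA.{u}) (hLSY : S_LSY.{u}) :
    S_TOWF.{u} := by
  intro G _ _ _ _ _ q K P hq hKc hKn hKD hP hPK m
  obtain ⟨g, -, hg⟩ := claim hSYL hCNJ hFRA hLSY q K P hq hKc hKn hKD hP hPK m ⊤
    isClosed_univ (by simp)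
  exact ⟨g, hg⟩

end Pool.Agent.J4H12.MX
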